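import Pool.Agent.Lib.MP_e6fef2_lc.Chain
import Pool.Agent.Lib.MP_c5d73d_lc.F.H62.Roapi

/-!
# KCC: the chain condition of the top of a chain of length `κ`, every element is old
-/

universe u

open Cardinal

namespace Pool.Agent.Lib.MP_e6fef2_lc.H16

open Pool.Agent.Lib.MP_100a6c_lc
open Pool.Agent.Lib.MP_c5d73d_lc.F (pr)
open Pool.Agent.Lib.MP_c5d73d_lc.F.H62 (pr_ne_bot pr_mono)

/-- The facts of `AlgStatement` for one complete embedding. -/
structure AlgF {A C : Type u} [CompleteBooleanAlgebra A] [CompleteBooleanAlgebra C]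
    (f : A → C) : Prop where
  top : f ⊤ = ⊤
  bot : f ⊥ = ⊥
  inf : ∀ a b, f (a ⊓ b) = f a ⊓ f b
  sup : ∀ a b, f (a ⊔ b) = f a ⊔ f b
  le : ∀ a b, f a ≤ f b ↔ a ≤ b
  iSup : ∀ (ι : Type u) (a : ι → A), f (⨆ i, a i) = ⨆ i, f (a i)
  iInf : ∀ (ι : Type u) (a : ι → A), f (⨅ i, a i) = ⨅ i, f (a i)
  iSupN : ∀ a : ℕ → A, f (⨆ i, a i) = ⨆ i, f (a i)
  iInfN : ∀ a : ℕ → A, f (⨅ i, a i) = ⨅ i, f (a i)
  le_prj : ∀ c, c ≤ f (prj f c)
  prj_le : ∀ c a, prj f c ≤ a ↔ c ≤ f a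
  prj_map : ∀ a, prj f (f a) = a
  prj_mono : ∀ c d, c ≤ d → prj f c ≤ prj f d
  prj_iSup : ∀ (ι : Type u) (c : ι → C), prj f (⨆ i, c i) = ⨆ i, prj f (c i)
  prj_iSupN : ∀ c : ℕ → C, prj f (⨆ i, c i) = ⨆ i, prj f (c i)
  prj_sSup : ∀ s : Set C, prj f (sSup s) = ⨆ c ∈ s, prj f c
  prj_inf : ∀ c a, prj f (c ⊓ f a) = prj f c ⊓ a
  prj_bot : ∀ c, prj f c = ⊥ ↔ c = ⊥
  disj : ∀ c a, f a ⊓ c = ⊥ ↔ a ⊓ prj f c = ⊥

theorem algF (h : AlgStatement.{u}) {A C : Type u} [CompleteBooleanAlgebra A]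
    [CompleteBooleanAlgebra C] {f : A → C} (hf : IsCE f) : AlgF f := by
  obtain ⟨h1, h2, h3, h4, h5, h6, h7, h8, h9, h10, h11, h12, h13, h14, h15, h16, h17, h18, h19⟩ :=
    h A C f hf
  exact ⟨h1, h2, h3, h4, h5, h6, h7, h8, h9, h10, h11, h12, h13, h14, h15, h16, h17, h18, h19⟩

/-- In an algebra with the `κ`-chain condition every family has a subfamily of size `< κ` with the
same supremum. -/
theorem small_sub {κ : Cardinal.{u}} {I : Type u} (hI : #I = κ) {A : Type u}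
    [CompleteBooleanAlgebra A] (hA : KCA I A) {T : Type u} (a : T → A) :
    ∃ Z : Set T, #Z < κ ∧ ∀ t, a t ≤ ⨆ z ∈ Z, a z := by
  classical
  have wf : WellFounded (WellOrderingRel (α := T)) := WellOrderingRel.isWellOrder.wf
  let b : T → A := fun t => a t \ ⨆ s : {s : T // WellOrderingRel s t}, a s
  have hb : ∀ s t : T, WellOrderingRel s t → b s ⊓ b t = ⊥ := by
    intro s t hst
    have h1 : b s ≤ ⨆ s : {s : T // WellOrderingRel s t}, a s :=
      sdiff_le.trans (le_iSup (fun s : {s : T // WellOrderingRel s t} => a s) ⟨s, hst⟩)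
    exact (disjoint_sdiff_self_right.mono_left h1).eq_bot
  let Z : Set T := {t | b t ≠ ⊥}
  refine ⟨Z, ?_, ?_⟩
  · by_contra h
    rw [not_lt, ← hI] at h
    obtain ⟨g⟩ := h
    obtain ⟨i, j, hij, hne⟩ := hA (fun i => b (g i)) (fun i => (g i).2)
    have hne' : (g i : T) ≠ g j := fun h => hij (g.injective (Subtype.ext h))
    have := WellOrderingRel.isWellOrder (α := T)
    rcases trichotomous_of (WellOrderingRel (α := T)) (g i : T) (g j : T) with h | h | h
    · exact hne (hb _ _ h)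
    · exact hne' h
    · exact hne (by rw [inf_comm]; exact hb _ _ h)
  · intro t
    induction t using wf.induction with
    | _ t ih =>
      by_cases ht : t ∈ Z
      · exact le_iSup₂_of_le t ht le_rfl
      · have h1 : b t = ⊥ := not_not.1 ht
        have h2 : a t ≤ ⨆ s : {s : T // WellOrderingRel s t}, a s := sdiff_eq_bot_iff.1 h1
        exact h2.trans (iSup_le fun s => ih s.1 s.2)

/-- The chain condition of an algebra with a small relatively dense set. -/
theorem kca_of_dm (hAlg : AlgStatement.{u}) (hDmr : DmrStatement.{u}) {κ : Cardinal.{u}}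
    {I : Type u} [LinearOrder I] (hI : Idx κ I) {S : Type u} [Preorder S] (hS : KC I S)
    {A : Type u} [CompleteBooleanAlgebra A] {ι : H1.RO S → A} {M : Set A} (hι : IsCE ι)
    (hM : DM ι M) (hMc : #M < κ) : KCA I A := by
  intro a ha
  have h0 := (hDmr S).1 A ι M hι hM
  choose s m hm hne hle hpr using fun i => h0 (a i) (ha i)
  let g : I → M := fun i => ⟨m i, hm i⟩
  have hcof : #M < κ.ord.cof := by rw [hI.reg.cof_ord]; exact hMc
  obtain ⟨y, hy⟩ := Cardinal.infinite_pigeonhole_card g κ hI.card.ge hI.reg.aleph0_le hcof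
  rw [← hI.card] at hy
  obtain ⟨φ⟩ := hy
  obtain ⟨i, j, hij, t, hti, htj⟩ := hS fun i => s (φ i)
  have hgi : m (φ i) = y := congrArg Subtype.val (show g (φ i) = y from (φ i).2)
  have hgj : m (φ j) = y := congrArg Subtype.val (show g (φ j) = y from (φ j).2)
  refine ⟨φ i, φ j, fun h => hij (φ.injective (Subtype.ext h)), fun hbot => ?_⟩
  have F := algF hAlg hι
  have h1 : ι (pr t) ⊓ (y : A) ≤ a (φ i) ⊓ a (φ j) := by
    refine le_inf (le_trans ?_ (hle (φ i))) (le_trans ?_ (hle (φ j)))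
    · rw [hgi]; exact inf_le_inf_right _ ((F.le _ _).2 (pr_mono hti))
    · rw [hgj]; exact inf_le_inf_right _ ((F.le _ _).2 (pr_mono htj))
  rw [hbot, le_bot_iff, F.disj] at h1
  have h2 : (pr t : H1.RO S) ≤ prj ι (y : A) := by
    rw [← hgi]; exact (pr_mono hti).trans (hpr (φ i))
  rw [inf_eq_left.2 h2] at h1
  exact pr_ne_bot t h1

/-- A set of cardinality `< κ` is bounded. -/
theorem bdd (hIdx : IdxStatement.{u}) {κ : Cardinal.{u}}
    {I : Type u} [LinearOrder I] [WellFoundedLT I] (hI : Idx κ I) (Z : Set I) (h : #Z < κ) :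
    ∃ i, ∀ z ∈ Z, z < i := (hIdx.2.1 κ I hI).1 Z h

/-- Elements with a bounded support are old. -/
theorem old_of_supp {I : Type u} [LinearOrder I] {A : I → Type u}
    [∀ i, CompleteBooleanAlgebra (A i)] {f : ∀ i j, A i → A j} {C : Type u}
    [CompleteBooleanAlgebra C] {e : ∀ i, A i → C} (hAlg : AlgStatement.{u}) (hT : IsTop A f e) (s : Set I) (k : I)
    (hk : ∀ i ∈ s, i ≤ k) (x : ∀ i, A i) : ∃ y : A k, ⨅ i ∈ s, e i (x i) = e k y := by
  have F := algF hAlg (hT.ce k)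
  refine ⟨⨅ i : s, f i k (x i), ?_⟩
  rw [F.iInf, iInf_subtype']
  exact iInf_congr fun i => (hT.comp i k (hk i i.2) (x i)).symm

/-- KCC: the chain condition of the top of a chain of length `κ`, and every element is old. -/
theorem kcc (hAlg : AlgStatement.{u}) (hDmr : DmrStatement.{u}) (hIdx : IdxStatement.{u})
    (hClo : CloStatement.{u}) : KccStatement.{u} := by
  intro κ I _ _ hI S _ hS A _ f ι M hG C _ e hT hDP
  classical
  -- countable sets are bounded
  have hctbl : ∀ s : Set I, s.Countable → ∃ k, ∀ i ∈ s, i < k := by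
    intro s hs
    exact bdd hIdx hI s (lt_of_le_of_lt (Cardinal.mk_le_aleph0_iff.2 hs.to_subtype) hI.unc)
  -- old elements are dense
  have hdense : ∀ c : C, c ≠ ⊥ → ∃ k, ∃ y : A k, e k y ≤ c ∧ e k y ≠ ⊥ := by
    intro c hc
    obtain ⟨d, hdc, hd, s, hs, -, hds⟩ := hDP c hc
    obtain ⟨k, hk⟩ := hctbl s hs
    obtain ⟨y, hy⟩ := old_of_supp hAlg hT s k (fun i hi => (hk i hi).le) fun i => prj (e i) d
    have hdy : d = e k y := hds.trans hy
    exact ⟨k, y, hdy ▸ hdc, hdy ▸ hd⟩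
  have hkca : ∀ i, KCA I (A i) := fun i =>
    kca_of_dm hAlg hDmr hI hS (hG.ιce i) (hG.Mdm i) (hG.Mcard i)
  have FT : ∀ i, AlgF (e i) := fun i => algF hAlg (hT.ce i)
  have FC : ∀ i j, i ≤ j → AlgF (f i j) := fun i j h => algF hAlg (hG.ch.ce i j h)
  have hmain : KCA I C := by
    intro c hc
    by_contra hcon
    have hdis : ∀ i j, i ≠ j → c i ⊓ c j = ⊥ := by
      intro i j hij
      by_contra h
      exact hcon ⟨i, j, hij, h⟩
    -- replace by old elements
    choose k y hle hne using fun i => hdense (c i) (hc i)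
    have hdis' : ∀ i j, i ≠ j → e (k i) (y i) ⊓ e (k j) (y j) = ⊥ := by
      intro i j hij
      have := inf_le_inf (hle i) (hle j)
      rw [hdis i j hij, le_bot_iff] at this
      exact this
    -- small subfamilies
    have h1 : ∀ β, ∃ Z : Set I, #Z < κ ∧ ∀ i, prj (e β) (e (k i) (y i)) ≤
        ⨆ z ∈ Z, prj (e β) (e (k z) (y z)) := fun β => small_sub hI.card (hkca β) _
    choose Z hZ hZs using h1
    have h2 : ∀ β, ∃ j, (∀ z ∈ Z β, z < j) ∧ ∀ z ∈ Z β, k z < j := by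
      intro β
      obtain ⟨j, hj⟩ := bdd hIdx hI (Z β) (hZ β)
      obtain ⟨j', hj'⟩ := bdd hIdx hI (k '' Z β) (lt_of_le_of_lt Cardinal.mk_image_le (hZ β))
      exact ⟨max j j', fun z hz => (hj z hz).trans_le (le_max_left _ _),
        fun z hz => (hj' _ ⟨z, hz, rfl⟩).trans_le (le_max_right _ _)⟩
    choose h hh1 hh2 using h2
    have hIne : Nonempty I := by
      rw [← Cardinal.mk_ne_zero_iff, hI.card]
      exact (Cardinal.aleph0_pos.trans hI.unc).ne'
    obtain ⟨i0⟩ := hIne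
    obtain ⟨δ, -, hUC, hδ⟩ := hClo κ I hI h i0
    have hlim : Order.IsSuccLimit δ := by
      refine ⟨?_, ?_⟩
      · obtain ⟨m, hm, -⟩ := hUC ∅ Set.countable_empty (by simp)
        exact fun hmin => (hmin hm.le).not_gt hm
      · intro m hm
        obtain ⟨m', hm', hmm⟩ := hUC {m} (Set.countable_singleton m) (by
          intro j hj
          rw [Set.mem_singleton_iff.1 hj]
          exact hm.lt)
        exact hm.2 (hmm m rfl) hm'
    -- all indices are below δ
    have hkey : ∀ x : I, ∃ β < δ, x ∈ Z β := by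
      intro x
      set a : A δ := prj (e δ) (e (k x) (y x)) with ha
      have ha0 : a ≠ ⊥ := fun h => hne x (((FT δ).prj_bot _).1 h)
      obtain ⟨d, hda, hd, s, hs, -, hsδ, hds⟩ := hG.dp δ hlim a ha0
      obtain ⟨β, hβ, hsβ⟩ := hUC s hs hsδ
      -- `d` is old
      have hold : ∃ w : A β, d = f β δ w := by
        refine ⟨⨅ i : s, f i β (prj (f i δ) d), ?_⟩
        rw [(FC β δ hβ.le).iInf]
        conv_lhs => rw [hds]
        rw [iInf_subtype']
        exact iInf_congr fun i =>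
          (hG.ch.comp i β δ (hsβ i i.2).le hβ.le (prj (f i δ) d)).symm
      obtain ⟨w, hw⟩ := hold
      have hw0 : w ≠ ⊥ := by
        rintro rfl
        exact hd (hw.trans (FC β δ hβ.le).bot)
      -- `w` is below the projection of `x`
      have hfa : f β δ w ≤ a := hw ▸ hda
      have hwle : w ≤ prj (e β) (e (k x) (y x)) := by
        have h3 : e (k x) (y x) ≤ e δ (f β δ (prj (e β) (e (k x) (y x)))) := by
          rw [hT.comp β δ hβ.le]
          exact (FT β).le_prj _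
        have h4 : a ≤ f β δ (prj (e β) (e (k x) (y x))) := ((FT δ).prj_le _ _).2 h3
        exact ((FC β δ hβ.le).le _ _).1 (hfa.trans h4)
      have h5 : w ⊓ ⨆ z ∈ Z β, prj (e β) (e (k z) (y z)) ≠ ⊥ := by
        rw [inf_eq_left.2 (hwle.trans (hZs β x))]
        exact hw0
      rw [inf_iSup₂_eq] at h5
      obtain ⟨z, hz, h6⟩ : ∃ z ∈ Z β, w ⊓ prj (e β) (e (k z) (y z)) ≠ ⊥ := by
        by_contra hc
        push Not at hc
        exact h5 (by simpa using hc)
      have hzδ : k z ≤ δ := ((hh2 β z hz).trans (hδ β hβ)).le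
      have h7 : e β w ⊓ e (k z) (y z) ≠ ⊥ := fun h => h6 (((FT β).disj _ _).1 h)
      have h8 : e δ (f (k z) δ (y z)) ⊓ e (k x) (y x) ≠ ⊥ := by
        intro h
        rw [(FT δ).disj] at h
        apply h7
        rw [← hT.comp β δ hβ.le, ← hT.comp (k z) δ hzδ, ← (FT δ).inf]
        have h9 : f β δ w ⊓ f (k z) δ (y z) = ⊥ := by
          rw [inf_comm, ← le_bot_iff, ← h]
          exact inf_le_inf_left _ hfa
        rw [h9, (FT δ).bot]
      rw [hT.comp (k z) δ hzδ] at h8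
      have hzx : z = x := by
        by_contra hne
        exact h8 (hdis' z x hne)
      exact ⟨β, hβ, hzx ▸ hz⟩
    obtain ⟨β, hβ, hx⟩ := hkey δ
    exact lt_irrefl δ ((hh1 β δ hx).trans (hδ β hβ))
  refine ⟨hmain, fun c => ?_⟩
  let T : Type u := {p : Σ i, A i // e p.1 p.2 ≤ c}
  obtain ⟨Z, hZ, hZs⟩ := small_sub hI.card hmain fun t : T => e t.1.1 t.1.2
  have hcle : c ≤ ⨆ z ∈ Z, e z.1.1 z.1.2 := by
    by_contra h
    have h1 : c \ ⨆ z ∈ Z, e z.1.1 z.1.2 ≠ ⊥ := fun h' => h (sdiff_eq_bot_iff.1 h')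
    obtain ⟨k, y, hy, hy0⟩ := hdense _ h1
    have h2 : e k y ≤ ⨆ z ∈ Z, e z.1.1 z.1.2 := hZs ⟨⟨k, y⟩, hy.trans sdiff_le⟩
    have h3 : e k y ≤ (⨆ z ∈ Z, e z.1.1 z.1.2)ᶜ := by
      rw [sdiff_eq] at hy
      exact hy.trans inf_le_right
    exact hy0 (le_bot_iff.1 (by
      have := le_inf h2 h3
      rwa [inf_compl_self] at this))
  obtain ⟨k, hk⟩ := bdd hIdx hI ((fun z : T => z.1.1) '' Z) (lt_of_le_of_lt Cardinal.mk_image_le hZ)
  refine ⟨k, ⨆ z : Z, f z.1.1.1 k z.1.1.2, ?_⟩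
  rw [(FT k).iSup]
  apply le_antisymm
  · refine hcle.trans (iSup₂_le fun z hz => ?_)
    rw [← hT.comp z.1.1 k (hk _ ⟨z, hz, rfl⟩).le]
    exact le_iSup (fun z : Z => e k (f z.1.1.1 k z.1.1.2)) ⟨z, hz⟩
  · refine iSup_le fun z => ?_
    rw [hT.comp z.1.1.1 k (hk _ ⟨z.1, z.2, rfl⟩).le]
    exact z.1.2

end Pool.Agent.Lib.MP_e6fef2_lc.H16
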